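import Mathlib
import Pool.Agent.H87.RN.Price

set_option autoImplicit false

/-!
Project RN (S11118), part RN7c: from a tight geometric bipartite graph with first order costs to a
price instance.
-/

open scoped BigOperators
open Filter Topology

namespace H5RN

/-- The plane. -/
abbrev E2 := EuclideanSpace ℝ (Fin 2)

/-- For small `ε` every optimum of `base + ε first` is a lexicographic optimum. -/
theorem lex_eps_set {ι X : Type*} [Finite ι] [Finite X] (base : X → ℝ) (first : ι → X → ℝ) :
    ∃ ε : ℝ, 0 < ε ∧ ∀ k x, (∀ y, base x + ε * first k x ≤ base y + ε * first k y) →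
      ∀ y, base x ≤ base y ∧ (base y = base x → first k x ≤ first k y) := by
  have key : ∀ᶠ ε : ℝ in 𝓝[>] (0 : ℝ), ∀ k x y, base y < base x →
      base y + ε * first k y < base x + ε * first k x := by
    rw [Filter.eventually_all]
    intro k
    rw [Filter.eventually_all]
    intro x
    rw [Filter.eventually_all]
    intro y
    by_cases hx : base y < base x
    · have h1 : Tendsto (fun ε : ℝ => (base x + ε * first k x) - (base y + ε * first k y))
          (𝓝 0) (𝓝 ((base x + 0 * first k x) - (base y + 0 * first k y))) := by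
        apply Continuous.tendsto
        fun_prop
      have h2 : (0 : ℝ) < (base x + 0 * first k x) - (base y + 0 * first k y) := by
        simp only [zero_mul, add_zero]; linarith
      have h3 := (h1.eventually (lt_mem_nhds h2)).filter_mono
        (nhdsWithin_le_nhds (s := Set.Ioi (0 : ℝ)))
      filter_upwards [h3] with ε hε _
      linarith
    · exact Filter.Eventually.of_forall fun ε h => absurd h hx
  obtain ⟨ε, hε1, hε2⟩ := (key.and self_mem_nhdsWithin).exists
  refine ⟨ε, hε2, fun k x hx y => ⟨?_, fun hy => ?_⟩⟩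
  · by_contra h
    push Not at h
    exact absurd (hε1 k x y h) (not_lt.mpr (hx y))
  · have h1 := hx y
    rw [hy] at h1
    have h2 : ε * first k x ≤ ε * first k y := by linarith
    exact le_of_mul_le_mul_left h2 hε2

section geo

variable {α β τ : Type} [Fintype α] [Fintype β]

/-- A matching which uses only adjacent pairs and covers all items outside the terminals. -/
def Good (adj : α → β → Prop) (T : Set β) (σ : α ↪ β) : Prop :=
  (∀ x, adj x (σ x)) ∧ ∀ y, y ∉ T → ∃ x, σ x = y

/-- The first order cost of a matching: edge costs and the spot term on the terminals. -/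
noncomputable def gcost (T : Set β) [DecidablePred (· ∈ T)] (b : β → E2) (c : α → β → ℝ)
    (t : E2) (σ : α ↪ β) : ℝ :=
  ∑ x, c x (σ x) + ∑ x, if σ x ∈ T then 2 * inner ℝ (b (σ x)) t else 0

/-- LP duality for the base costs. -/
theorem base_ge (a : α → E2) (b : β → E2) (adj : α → β → Prop) (u : α → ℝ) (price : β → ℝ)
    (T : Set β)
    (h1 : ∀ x y, adj x y → ‖a x - b y‖ ^ 2 + price y = u x)
    (h2 : ∀ x y, ¬ adj x y → u x < ‖a x - b y‖ ^ 2 + price y)
    (hp : ∀ y, y ∉ T → 0 < price y) (hT : ∀ y, y ∈ T → price y = 0) (σ : α ↪ β) :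
    (∑ x, u x - ∑ y, price y ≤ ∑ x, ‖a x - b (σ x)‖ ^ 2) ∧
    (∑ x, ‖a x - b (σ x)‖ ^ 2 ≤ ∑ x, u x - ∑ y, price y → Good adj T σ) := by
  classical
  have hp0 : ∀ y, 0 ≤ price y := fun y => by
    by_cases hy : y ∈ T
    · exact (hT y hy).ge
    · exact (hp y hy).le
  have hle : ∀ x, u x ≤ ‖a x - b (σ x)‖ ^ 2 + price (σ x) := fun x => by
    by_cases hx : adj x (σ x)
    · exact (h1 _ _ hx).ge
    · exact (h2 _ _ hx).le
  have hsum1 : ∑ x, u x ≤ ∑ x, ‖a x - b (σ x)‖ ^ 2 + ∑ x, price (σ x) := by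
    rw [← Finset.sum_add_distrib]
    exact Finset.sum_le_sum fun x _ => hle x
  have hmap : ∑ x, price (σ x) = ∑ y ∈ Finset.univ.map σ, price y := by
    rw [Finset.sum_map]
  have hsum2 : ∑ x, price (σ x) ≤ ∑ y, price y := by
    rw [hmap]
    exact Finset.sum_le_sum_of_subset_of_nonneg (Finset.subset_univ _) fun y _ _ => hp0 y
  refine ⟨by linarith, fun h => ⟨?_, ?_⟩⟩
  · by_contra hc
    push Not at hc
    obtain ⟨x0, hx0⟩ := hc
    have hlt : ∑ x, u x < ∑ x, (‖a x - b (σ x)‖ ^ 2 + price (σ x)) :=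
      Finset.sum_lt_sum (fun x _ => hle x) ⟨x0, Finset.mem_univ _, h2 _ _ hx0⟩
    rw [Finset.sum_add_distrib] at hlt
    linarith
  · intro y hy
    by_contra hc
    push Not at hc
    have hlt : ∑ y ∈ Finset.univ.map σ, price y < ∑ y, price y := by
      apply Finset.sum_lt_sum_of_subset (Finset.subset_univ _) (Finset.mem_univ y) _ (hp y hy)
      · intro j _ _
        exact hp0 j
      · intro hmem
        rw [Finset.mem_map] at hmem
        obtain ⟨x, -, hx⟩ := hmem
        exact hc x hx
    linarith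

theorem good_base (a : α → E2) (b : β → E2) (adj : α → β → Prop) (u : α → ℝ) (price : β → ℝ)
    (T : Set β)
    (h1 : ∀ x y, adj x y → ‖a x - b y‖ ^ 2 + price y = u x)
    (hT : ∀ y, y ∈ T → price y = 0) (σ : α ↪ β) (hσ : Good adj T σ) :
    ∑ x, ‖a x - b (σ x)‖ ^ 2 = ∑ x, u x - ∑ y, price y := by
  classical
  have e1 : ∑ x, u x = ∑ x, ‖a x - b (σ x)‖ ^ 2 + ∑ x, price (σ x) := by
    rw [← Finset.sum_add_distrib]
    exact Finset.sum_congr rfl fun x _ => (h1 _ _ (hσ.1 x)).symm
  have hmap : ∑ x, price (σ x) = ∑ y ∈ Finset.univ.map σ, price y := by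
    rw [Finset.sum_map]
  have e2 : ∑ y ∈ Finset.univ.map σ, price y = ∑ y, price y := by
    apply Finset.sum_subset (Finset.subset_univ _)
    intro y _ hy
    apply hT
    by_contra hyT
    obtain ⟨x, hx⟩ := hσ.2 y hyT
    exact hy (Finset.mem_map.mpr ⟨x, Finset.mem_univ _, hx⟩)
  rw [e1, hmap, e2]
  ring

/-- the spot term of a good matching, full sum versus terminals only -/
theorem spot_sum (adj : α → β → Prop) (T : Set β) [DecidablePred (· ∈ T)] (g : β → ℝ)
    (σ : α ↪ β) (hσ : Good adj T σ) :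
    ∑ x, g (σ x) = (∑ x, if σ x ∈ T then g (σ x) else 0)
      + ∑ y ∈ Finset.univ.filter (fun y : β => y ∉ T), g y := by
  classical
  have e3 : Finset.univ.filter (fun y : β => y ∉ T)
      = (Finset.univ.filter (fun x : α => σ x ∉ T)).map σ := by
    ext y
    simp only [Finset.mem_map, Finset.mem_filter, Finset.mem_univ, true_and]
    constructor
    · intro hy
      obtain ⟨x, rfl⟩ := hσ.2 y hy
      exact ⟨x, hy, rfl⟩
    · rintro ⟨x, hx, rfl⟩
      exact hx
  rw [e3, Finset.sum_map, Finset.sum_filter, ← Finset.sum_add_distrib]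
  refine Finset.sum_congr rfl fun x _ => ?_
  by_cases hx : σ x ∈ T <;> simp [hx]

/-- **RN7c.** A tight geometric bipartite graph with terminals, linear first order costs and spots
whose first order optima have prescribed pairwise different ranges gives a price instance. -/
theorem inst_of_geo [Finite τ]
    (a : α → E2) (b : β → E2) (adj : α → β → Prop) (u : α → ℝ) (price : β → ℝ)
    (T : Set β) [DecidablePred (· ∈ T)]
    (h1 : ∀ x y, adj x y → ‖a x - b y‖ ^ 2 + price y = u x)
    (h2 : ∀ x y, ¬ adj x y → u x < ‖a x - b y‖ ^ 2 + price y)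
    (hp : ∀ y, y ∉ T → 0 < price y) (hT : ∀ y, y ∈ T → price y = 0)
    (c : α → β → ℝ)
    (hc : ∀ x, ∃ (p : E2) (k : ℝ), ∀ y, adj x y → inner ℝ (b y) p + k = c x y)
    (t : τ → E2) (S : τ → Finset β) (hinj : Function.Injective S)
    (hex : ∃ σ : α ↪ β, Good adj T σ)
    (hopt : ∀ (s : τ) (σ : α ↪ β), Good adj T σ →
      (∀ σ' : α ↪ β, Good adj T σ' → gcost T b c (t s) σ ≤ gcost T b c (t s) σ') →
      Finset.univ.map σ = S s) :
    Nonempty (H87RN.Inst α β τ) := by
  classical
  choose p k hpk using hc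
  obtain ⟨ε, hε, hlex⟩ := lex_eps_set (ι := τ) (X := α ↪ β)
    (fun σ => ∑ x, ‖a x - b (σ x)‖ ^ 2)
    (fun s σ => ∑ x, (inner ℝ (b (σ x)) (p x) + 2 * inner ℝ (b (σ x)) (t s)))
  have hcost : ∀ (s : τ) (σ : α ↪ β),
      ∑ x, (‖(a x + (-(ε / 2)) • p x) - b (σ x)‖ ^ 2 + 2 * inner ℝ (b (σ x)) (ε • t s))
        = (∑ x, ‖a x - b (σ x)‖ ^ 2
            + ε * ∑ x, (inner ℝ (b (σ x)) (p x) + 2 * inner ℝ (b (σ x)) (t s)))
          + ∑ x, (- ε * inner ℝ (a x) (p x) + (ε / 2) ^ 2 * ‖p x‖ ^ 2) := by
    intro s σ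
    rw [Finset.mul_sum, ← Finset.sum_add_distrib, ← Finset.sum_add_distrib]
    refine Finset.sum_congr rfl fun x _ => ?_
    have e : (a x + (-(ε / 2)) • p x) - b (σ x) = (a x - b (σ x)) + (-(ε / 2)) • p x := by abel
    rw [e, norm_add_sq_real, inner_smul_right, norm_smul, mul_pow, Real.norm_eq_abs, sq_abs,
      inner_sub_left, inner_smul_right]
    ring
  have hfirst : ∀ (s : τ) (σ : α ↪ β), Good adj T σ →
      ∑ x, (inner ℝ (b (σ x)) (p x) + 2 * inner ℝ (b (σ x)) (t s))
        = gcost T b c (t s) σ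
          + (∑ y ∈ Finset.univ.filter (fun y : β => y ∉ T), 2 * inner ℝ (b y) (t s)
              - ∑ x, k x) := by
    intro s σ hσ
    rw [Finset.sum_add_distrib, spot_sum adj T (fun y => 2 * inner ℝ (b y) (t s)) σ hσ]
    have e : ∑ x, (inner ℝ (b (σ x)) (p x) : ℝ) = ∑ x, c x (σ x) - ∑ x, k x := by
      rw [← Finset.sum_sub_distrib]
      refine Finset.sum_congr rfl fun x _ => ?_
      have := hpk x (σ x) (hσ.1 x)
      linarith
    rw [e]
    unfold gcost
    ring
  obtain ⟨σ0, hσ0⟩ := hex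
  refine ⟨{ a := fun x => a x + (-(ε / 2)) • p x, b := b, t := fun s => ε • t s, S := S,
            inj := hinj, opt := ?_ }⟩
  intro s π hπ
  have hl := hlex s π (fun σ => by
    have := hπ σ
    rw [hcost s π, hcost s σ] at this
    linarith)
  have hbase0 := good_base a b adj u price T h1 hT σ0 hσ0
  have hgood : Good adj T π := by
    apply (base_ge a b adj u price T h1 h2 hp hT π).2
    have := (hl σ0).1
    rw [hbase0] at this
    exact this
  refine hopt s π hgood fun σ' hσ' => ?_
  have hb : ∑ x, ‖a x - b (σ' x)‖ ^ 2 = ∑ x, ‖a x - b (π x)‖ ^ 2 := by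
    rw [good_base a b adj u price T h1 hT σ' hσ', good_base a b adj u price T h1 hT π hgood]
  have h3 := (hl σ').2 hb
  rw [hfirst s π hgood, hfirst s σ' hσ'] at h3
  linarith

end geo

end H5RN
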